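import Pool.Agent.Helper61.FN.Goals

set_option autoImplicit false

namespace Pool.Agent.Helper86.FN

open Pool.Agent.Helper61.FN

theorem goalPRM : G_PRM := by
  classical
  intro F E _ _ Z hZ hne
  -- vanishing ideal
  let I : Ideal (MvPolynomial E F) :=
    { carrier := {p | ∀ z ∈ Z, MvPolynomial.eval z p = 0}
      add_mem' := by
        intro a b ha hb z hz
        rw [map_add, ha z hz, hb z hz, add_zero]
      zero_mem' := by intro z hz; simp
      smul_mem' := by
        intro c x hx z hz
        rw [smul_eq_mul, map_mul, hx z hz, mul_zero] }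
  have hmemI : ∀ p, p ∈ I ↔ ∀ z ∈ Z, MvPolynomial.eval z p = 0 := fun p => Iff.rfl
  have hfin : I.minimalPrimes.Finite := Ideal.finite_minimalPrimes_of_isNoetherianRing _ I
  let m : (E → F) → Ideal (MvPolynomial E F) := fun z => RingHom.ker (MvPolynomial.eval z)
  have hmprime : ∀ z, (m z).IsPrime := fun z => RingHom.ker_isPrime _
  have hIm : ∀ z ∈ Z, I ≤ m z := by
    intro z hz p hp
    exact (RingHom.mem_ker).2 (hp z hz)
  have hP : ∀ z ∈ Z, ∃ P ∈ I.minimalPrimes, P ≤ m z := by
    intro z hz
    haveI := hmprime z
    exact Ideal.exists_minimalPrimes_le (hIm z hz)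
  choose! P hPmin hPm using hP
  by_contra hcon
  push Not at hcon
  have halg : ∀ z ∈ Z, ∀ e, IsAlgebraic F (Ideal.Quotient.mk (P z) (MvPolynomial.X e)) := by
    intro z hz e
    have h := hcon (P z) (hPmin z hz).1.1 (fun p hp => (hPmin z hz).1.2 ((hmemI p).2 hp)) (by
      intro e' he'
      have := hPm z hz he'
      rw [RingHom.mem_ker] at this
      simp at this
      exact hne z hz e' this) e
    unfold Transcendental at h
    exact not_not.1 h
  have hmax : ∀ z ∈ Z, P z = m z := by
    intro z hz
    haveI : (P z).IsPrime := (hPmin z hz).1.1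
    have hint : ∀ q : MvPolynomial E F, IsIntegral F (Ideal.Quotient.mk (P z) q) := by
      intro q
      induction q using MvPolynomial.induction_on with
      | C a =>
        have : Ideal.Quotient.mk (P z) (MvPolynomial.C a) = algebraMap F (MvPolynomial E F ⧸ P z) a := rfl
        rw [this]
        exact isIntegral_algebraMap
      | add p q hp hq => rw [map_add]; exact hp.add hq
      | mul_X p e hp => rw [map_mul]; exact hp.mul (halg z hz e).isIntegral
    haveI : Algebra.IsIntegral F (MvPolynomial E F ⧸ P z) := by
      constructor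
      intro x
      obtain ⟨q, rfl⟩ := Ideal.Quotient.mk_surjective x
      exact hint q
    have hfield : IsField (MvPolynomial E F ⧸ P z) :=
      isField_of_isIntegral_of_isField' (Field.toIsField F)
    have hmx : (P z).IsMaximal := Ideal.Quotient.maximal_of_isField _ hfield
    exact hmx.eq_of_le (hmprime z).ne_top (hPm z hz)
  have hinj : Set.InjOn P Z := by
    intro z hz w hw h
    rw [hmax z hz, hmax w hw] at h
    funext e
    have h1 : (MvPolynomial.X e - MvPolynomial.C (z e) : MvPolynomial E F) ∈ m z := by
      rw [RingHom.mem_ker]; simp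
    rw [h, RingHom.mem_ker] at h1
    simp only [map_sub, MvPolynomial.eval_X, MvPolynomial.eval_C] at h1
    exact (sub_eq_zero.1 h1).symm
  exact hZ ((hfin.subset (Set.image_subset_iff.2 (fun z hz => hPmin z hz))).of_finite_image hinj)

end Pool.Agent.Helper86.FN
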